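import Pool.Agent.H61.HX.SBlk

set_option autoImplicit false
open Classical Finset

namespace Pool.Agent.H61.HX

open Pool.Agent.H39.HW (sm Av ln blk lab)
open Pool.Agent.H65.HX Pool.Agent.H65.HX.Sc

theorem p2 {x : Prm} (h : Par x) : 2 ≤ x.p := by
  have h1 := h.g3
  omega

/-- blocks strictly between are short -/
theorem ava_right {x : Prm} (h : Par x) (a β : ℕ) (_ha : a + 1 < x.B) (hβ : β < x.B) (hle : a ≤ β)
    (hav : Av x.st x.p a β) : a + x.g + 1 ≤ β := by
  have hp := p2 h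
  have hm := st_mono h
  rcases hav with h1 | h1
  · by_contra hc
    push Not at hc
    by_cases hab : β ≤ a
    · have := hm (show β ≤ a + 1 by omega)
      omega
    · obtain ⟨n, rfl⟩ : ∃ n, β = a + 1 + n := ⟨β - (a + 1), by omega⟩
      have h2 := st_le h (a + 1) n hβ
      have h3 := h.g3
      have h4 : n * x.v ≤ (x.g - 1) * x.v := Nat.mul_le_mul_right _ (by omega)
      omega
  · have := hm (show a ≤ β + 1 by omega)
    omega

theorem ava_left {x : Prm} (h : Par x) (a β : ℕ) (ha : a < x.B) (hle : β ≤ a)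
    (hav : Av x.st x.p a β) : β + x.g + 1 ≤ a := by
  have hp := p2 h
  have hm := st_mono h
  rcases hav with h1 | h1
  · have := hm (show β ≤ a + 1 by omega)
    omega
  · by_contra hc
    push Not at hc
    by_cases hab : a ≤ β
    · have := hm (show a ≤ β + 1 by omega)
      omega
    · obtain ⟨n, rfl⟩ : ∃ n, a = β + 1 + n := ⟨a - (β + 1), by omega⟩
      have h2 := st_le h (β + 1) n ha
      have h3 := h.g3
      have h4 : n * x.v ≤ (x.g - 1) * x.v := Nat.mul_le_mul_right _ (by omega)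
      omega

theorem ge_aux (J w v e g s n : ℕ) (hwv : w < v) (he : J * (v - w) ≤ e * v) (hs : s ≤ J)
    (hn : g + e ≤ s + n) : g * v ≤ s * w + n * v := by
  have h1 : s * (v - w) ≤ e * v := (Nat.mul_le_mul_right _ hs).trans he
  obtain ⟨d, rfl⟩ : ∃ d, v = w + d := ⟨v - w, by omega⟩
  rw [Nat.add_sub_cancel_left] at h1
  have h2 : (g + e) * (w + d) ≤ (s + n) * (w + d) := Nat.mul_le_mul_right _ hn
  nlinarith

theorem av_r {x : Prm} (h : Par x) (a β : ℕ) (hβ : β < x.B) (hn : a + x.K ≤ β + 2 * x.W) :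
    Av x.st x.p a β := by
  have hKW := h.KW
  left
  obtain ⟨n, rfl⟩ : ∃ n, β = a + 1 + n := ⟨β - (a + 1), by omega⟩
  have h3 := st_K h (a + 1) n (by omega) (by omega)
  omega

theorem av_l {x : Prm} (h : Par x) (a β : ℕ) (_ha : a < x.B) (hn : β + x.K ≤ a + 2 * x.W) :
    Av x.st x.p a β := by
  have hKW := h.KW
  right
  obtain ⟨n, rfl⟩ : ∃ n, a = β + 1 + n := ⟨a - (β + 1), by omega⟩
  have h3 := st_K h (β + 1) n (by omega) (by omega)
  omega

theorem t_AVA : S_AVA := by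
  intro x h a ha β hβ
  have hK := K100 h
  obtain ⟨ha1, ha2⟩ := Finset.mem_Icc.1 ha
  have hJ := h.J1
  have hb1 : x.b1 = x.b0 + x.M := b1_def x
  have hB : x.B = x.b1 + x.b0 := B_def x
  have hb0 : x.b0 = x.K + x.J := rfl
  have haB : a + 1 < x.B := by omega
  have hKh := h.KhK
  have hg2 := h.g2
  have hwv : x.w2 < x.v := h.w12.trans h.w1v
  have he2 := h.e2
  refine ⟨av_r h a β hβ, av_l h a β (by omega), ?_, fun h1 h2 => ava_right h a β haB hβ h1 h2,
    fun h1 h2 => ava_left h a β (by omega) h1 h2, ?_, ?_, ?_, ?_⟩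
  · intro hn
    unfold Prm.adj at hn
    by_cases h1 : β ≤ a + x.K
    · exact av_l h a β (by omega) (by omega)
    · exact av_r h a β hβ (by omega)
  · intro h0 h1 h2
    left
    by_cases hab : x.b0 ≤ a + 1
    · obtain ⟨i, hi⟩ : ∃ i, a + 1 = x.b0 + i := ⟨a + 1 - x.b0, by omega⟩
      obtain ⟨j, hj⟩ : ∃ j, β = x.b0 + j := ⟨β - x.b0, by omega⟩
      rw [hi, hj, st_mid h i (by omega), st_mid h j (by omega)]
      have h3 : (i + x.g) * x.v ≤ j * x.v := Nat.mul_le_mul_right _ (by omega)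
      rw [Nat.add_mul] at h3
      omega
    · obtain ⟨s, hs⟩ : ∃ s, x.b0 = a + 1 + s := ⟨x.b0 - (a + 1), by omega⟩
      obtain ⟨j, hj⟩ : ∃ j, β = x.b0 + j := ⟨β - x.b0, by omega⟩
      obtain ⟨i, hi⟩ : ∃ i, a + 1 = x.Kh + i := ⟨a + 1 - x.Kh, by omega⟩
      have h3 : x.g * x.v ≤ s * x.w2 + j * x.v :=
        ge_aux x.J x.w2 x.v x.e x.g s j hwv he2 (by omega) (by omega)
      rw [hj, st_mid h j (by omega), hi, st_z2 i (by omega)]
      have h4 : x.Z0 = x.Kh * x.w1 + i * x.w2 + s * x.w2 := by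
        unfold Prm.Z0
        rw [show x.b0 - x.Kh = i + s by omega]
        ring
      omega
  · intro h0 h1 h2
    right
    by_cases hab : a ≤ x.b1
    · obtain ⟨i, hi⟩ : ∃ i, a = x.b0 + i := ⟨a - x.b0, by omega⟩
      obtain ⟨j, hj⟩ : ∃ j, β + 1 = x.b0 + j := ⟨β + 1 - x.b0, by omega⟩
      rw [hi, hj, st_mid h i (by omega), st_mid h j (by omega)]
      have h3 : (j + x.g) * x.v ≤ i * x.v := Nat.mul_le_mul_right _ (by omega)
      rw [Nat.add_mul] at h3
      omega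
    · obtain ⟨s, hs⟩ : ∃ s, a = x.b1 + s := ⟨a - x.b1, by omega⟩
      obtain ⟨j, hj⟩ : ∃ j, β + 1 = x.b0 + j := ⟨β + 1 - x.b0, by omega⟩
      obtain ⟨n, hn⟩ : ∃ n, x.M = j + n := ⟨x.M - j, by omega⟩
      have h3 : x.g * x.v ≤ s * x.w2 + n * x.v :=
        ge_aux x.J x.w2 x.v x.e x.g s n hwv he2 (by omega) (by omega)
      rw [hj, st_mid h j (by omega), hs, st_z4 h s (by omega)]
      have h4 : x.M * x.v = j * x.v + n * x.v := by rw [hn]; ring
      omega
  · intro h0 h1 h2 h3 h4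
    left
    obtain ⟨i, hi⟩ : ∃ i, a + 1 = x.b0 + i := ⟨a + 1 - x.b0, by omega⟩
    obtain ⟨j, hj⟩ : ∃ j, β = x.b0 + j := ⟨β - x.b0, by omega⟩
    rw [hi, hj, st_mid h i (by omega), st_mid h j (by omega)]
    have h3 : (i + x.g) * x.v ≤ j * x.v := Nat.mul_le_mul_right _ (by omega)
    rw [Nat.add_mul] at h3
    omega
  · intro h0 h1 h2 h3 h4
    right
    obtain ⟨i, hi⟩ : ∃ i, a = x.b0 + i := ⟨a - x.b0, by omega⟩
    obtain ⟨j, hj⟩ : ∃ j, β + 1 = x.b0 + j := ⟨β + 1 - x.b0, by omega⟩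
    rw [hi, hj, st_mid h i (by omega), st_mid h j (by omega)]
    have h3 : (j + x.g) * x.v ≤ i * x.v := Nat.mul_le_mul_right _ (by omega)
    rw [Nat.add_mul] at h3
    omega

end Pool.Agent.H61.HX
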