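import Pool.Agent.H65.HX.SStm

set_option autoImplicit false
open Classical Finset

namespace Pool.Agent.H61.HX

open Pool.Agent.H39.HW (sm Av ln blk lab)
open Pool.Agent.H65.HX Pool.Agent.H65.HX.Sc

theorem K100 {x : Prm} (h : Par x) : 100 ≤ x.K := by
  have := h.KJ
  omega

theorem Kh46 {x : Prm} (h : Par x) : 1 ≤ x.Kh := by
  have := h.Kh1
  have := K100 h
  omega

theorem eta_small {x : Prm} (h : Par x) : x.η ≤ 1 / 10 ^ 6 := by
  have h1 := h.V1
  have h2 := h.V2
  have hh : (1000 : ℝ) ≤ x.h := by exact_mod_cast h.h1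
  have hL : (1 : ℝ) ≤ x.L := by
    have h3 := h.L1
    have h4 := h.h1
    have : 1 ≤ x.L := by nlinarith
    exact_mod_cast this
  have h5 : (1 : ℝ) ≤ (x.L : ℝ) * x.h := by nlinarith
  have h6 : 0 ≤ (x.n0 : ℝ) * x.μ := mul_nonneg (Nat.cast_nonneg _) h.m0.le
  have h7 : (x.n0 : ℝ) * x.μ ≤ 10 ^ 12 * (x.L : ℝ) * x.h * (x.n0 * x.μ) := by nlinarith
  linarith

theorem KM {x : Prm} (h : Par x) : x.K < x.M := by
  have h1 := h.k1
  have h2 := h.m1
  have h3 := eta_small h
  have h4 := h.m0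
  rw [abs_le] at h1 h2
  by_contra hc
  have h5 : (x.M : ℝ) ≤ x.K := by exact_mod_cast (not_lt.1 hc)
  have h6 : (x.M : ℝ) * x.μ ≤ x.K * x.μ := mul_le_mul_of_nonneg_right h5 h4.le
  linarith [h1.2, h2.1]

theorem b0_def (x : Prm) : x.b0 = x.K + x.J := rfl
theorem b1_def (x : Prm) : x.b1 = x.b0 + x.M := by unfold Prm.b1 Prm.b0; omega
theorem B_def (x : Prm) : x.B = x.b1 + x.b0 := by unfold Prm.B Prm.b1 Prm.b0; omega

theorem KhB {x : Prm} (h : Par x) : x.Kh < x.b0 := by
  have := h.KhK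
  have := h.J1
  rw [b0_def]
  omega

theorem st_z1 (x : Prm) (i : ℕ) (hi : i ≤ x.Kh) : x.st i = i * x.w1 := by
  unfold Prm.st
  rw [if_pos hi]

theorem st_z2 {x : Prm} (i : ℕ) (hi : x.Kh + i ≤ x.b0) :
    x.st (x.Kh + i) = x.Kh * x.w1 + i * x.w2 := by
  unfold Prm.st
  by_cases h0 : i = 0
  · subst h0
    rw [if_pos (by omega)]
    simp
  · rw [if_neg (by omega), if_pos hi, Nat.add_sub_cancel_left]

theorem st_mid {x : Prm} (h : Par x) (i : ℕ) (hi : i ≤ x.M) :
    x.st (x.b0 + i) = x.Z0 + i * x.v := by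
  have hk := KhB h
  have h1 := b1_def x
  by_cases h0 : i = 0
  · subst h0
    have := st_z2 (x := x) (x.b0 - x.Kh) (by omega)
    rw [show x.Kh + (x.b0 - x.Kh) = x.b0 by omega] at this
    rw [Nat.add_zero, this, Prm.Z0]
    simp
  · unfold Prm.st
    rw [if_neg (by omega), if_neg (by omega), if_pos (by omega), Nat.add_sub_cancel_left]

theorem st_z4 {x : Prm} (h : Par x) (i : ℕ) (hi : i + x.Kh ≤ x.b0) :
    x.st (x.b1 + i) = x.Z0 + x.M * x.v + i * x.w2 := by
  have hk := KhB h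
  have h1 := b1_def x
  have h2 := B_def x
  by_cases h0 : i = 0
  · subst h0
    have := st_mid h x.M le_rfl
    rw [← h1] at this
    rw [Nat.add_zero, this]
    simp
  · unfold Prm.st
    rw [if_neg (by omega), if_neg (by omega), if_neg (by omega), if_pos (by omega),
      Nat.add_sub_cancel_left]

theorem st_z5 {x : Prm} (h : Par x) (i : ℕ) (hi : i < x.Kh) :
    x.st (x.B - x.Kh + i) =
      x.Z0 + x.M * x.v + (x.b0 - x.Kh) * x.w2 + i * x.w1 := by
  have hk := KhB h
  have h1 := b1_def x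
  have h2 := B_def x
  by_cases h0 : i = 0
  · subst h0
    have := st_z4 h (x.b0 - x.Kh) (by omega)
    rw [show x.b1 + (x.b0 - x.Kh) = x.B - x.Kh by omega] at this
    rw [Nat.add_zero, this]
    simp
  · unfold Prm.st
    rw [if_neg (by omega), if_neg (by omega), if_neg (by omega), if_neg (by omega),
      if_pos (by omega), Nat.add_sub_cancel_left]

theorem st_end {x : Prm} (h : Par x) (i : ℕ) (hi : x.B ≤ i) : x.st i = x.D + 2 * x.p := by
  have hk := KhB h
  have h1 := b1_def x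
  have h2 := B_def x
  have h3 := Kh46 h
  unfold Prm.st
  rw [if_neg (by omega), if_neg (by omega), if_neg (by omega), if_neg (by omega),
    if_neg (by omega)]

theorem ln1 {x : Prm} (β : ℕ) (hβ : β < x.Kh) : x.st (β + 1) = x.st β + x.w1 := by
  rw [st_z1 x (β + 1) (by omega), st_z1 x β (by omega)]
  ring

theorem ln2 {x : Prm} (β : ℕ) (h0 : x.Kh ≤ β) (h1 : β < x.b0) :
    x.st (β + 1) = x.st β + x.w2 := by
  obtain ⟨i, rfl⟩ : ∃ i, β = x.Kh + i := ⟨β - x.Kh, by omega⟩
  rw [show x.Kh + i + 1 = x.Kh + (i + 1) by ring, st_z2 (i + 1) (by omega), st_z2 i (by omega)]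
  ring

theorem ln3 {x : Prm} (h : Par x) (β : ℕ) (h0 : x.b0 ≤ β) (h1 : β < x.b1) :
    x.st (β + 1) = x.st β + x.v := by
  obtain ⟨i, rfl⟩ : ∃ i, β = x.b0 + i := ⟨β - x.b0, by omega⟩
  have hb := b1_def x
  rw [show x.b0 + i + 1 = x.b0 + (i + 1) by ring, st_mid h (i + 1) (by omega),
    st_mid h i (by omega)]
  ring

theorem ln4 {x : Prm} (h : Par x) (β : ℕ) (h0 : x.b1 ≤ β) (h1 : β + x.Kh < x.B) :
    x.st (β + 1) = x.st β + x.w2 := by
  obtain ⟨i, rfl⟩ : ∃ i, β = x.b1 + i := ⟨β - x.b1, by omega⟩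
  have hb := B_def x
  rw [show x.b1 + i + 1 = x.b1 + (i + 1) by ring, st_z4 h (i + 1) (by omega),
    st_z4 h i (by omega)]
  ring

theorem ln5 {x : Prm} (h : Par x) (β : ℕ) (h0 : x.B ≤ β + x.Kh) (h1 : β + 1 < x.B) :
    x.st (β + 1) = x.st β + x.w1 := by
  have hk := KhB h
  have hb := B_def x
  obtain ⟨i, rfl⟩ : ∃ i, β = x.B - x.Kh + i := ⟨β - (x.B - x.Kh), by omega⟩
  rw [show x.B - x.Kh + i + 1 = x.B - x.Kh + (i + 1) by ring, st_z5 h (i + 1) (by omega),
    st_z5 h i (by omega)]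
  ring

theorem ln6 {x : Prm} (h : Par x) (β : ℕ) (h1 : β + 1 = x.B) :
    x.st β + x.w1 ≤ x.st (β + 1) ∧ x.st (β + 1) ≤ x.st β + x.w1 + x.M := by
  have hk := KhB h
  have hb := B_def x
  have hK := Kh46 h
  obtain ⟨i, rfl⟩ : ∃ i, β = x.B - x.Kh + i := ⟨β - (x.B - x.Kh), by omega⟩
  have hi : i + 1 = x.Kh := by omega
  rw [st_end h (x.B - x.Kh + i + 1) (by omega), st_z5 h i (by omega)]
  have h2 := h.N1
  have h3 := h.N2
  have e1 : i * x.w1 + x.w1 = x.Kh * x.w1 := by rw [← hi]; ring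
  have e2 : x.Z0 = x.Kh * x.w1 + (x.b0 - x.Kh) * x.w2 := rfl
  omega

/-- number of the blocks of length `w2` below `β` -/
def zc (x : Prm) (β : ℕ) : ℕ := (min β x.b0 - x.Kh) + (min β (x.B - x.Kh) - x.b1)

theorem ln_zc {x : Prm} (h : Par x) (β : ℕ) (hβ : β < x.B) :
    x.st β + x.w1 + (x.w1 - x.w2) * zc x β ≤ x.st (β + 1) + (x.w1 - x.w2) * zc x (β + 1) := by
  have hk := KhB h
  have hb := B_def x
  have hb1 := b1_def x
  have h12 := h.w12
  have h1v := h.w1v
  by_cases c1 : β < x.Kh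
  · have e : zc x (β + 1) = zc x β := by unfold zc; omega
    rw [ln1 β c1, e]
  · by_cases c2 : β < x.b0
    · have e : zc x (β + 1) = zc x β + 1 := by unfold zc; omega
      rw [ln2 β (by omega) c2, e, Nat.mul_add, Nat.mul_one]
      omega
    · by_cases c3 : β < x.b1
      · have e : zc x (β + 1) = zc x β := by unfold zc; omega
        rw [ln3 h β (by omega) c3, e]
        omega
      · by_cases c4 : β + x.Kh < x.B
        · have e : zc x (β + 1) = zc x β + 1 := by unfold zc; omega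
          rw [ln4 h β (by omega) c4, e, Nat.mul_add, Nat.mul_one]
          omega
        · have e : zc x (β + 1) = zc x β := by unfold zc; omega
          by_cases c5 : β + 1 < x.B
          · rw [ln5 h β (by omega) c5, e]
          · have := (ln6 h β (by omega)).1
            rw [e]
            omega

theorem ln_ge {x : Prm} (h : Par x) (β : ℕ) (hβ : β < x.B) : x.st β + x.w2 ≤ x.st (β + 1) := by
  have h12 := h.w12
  have h1v := h.w1v
  by_cases c1 : β < x.Kh
  · rw [ln1 β c1]; omega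
  · by_cases c2 : β < x.b0
    · rw [ln2 β (by omega) c2]
    · by_cases c3 : β < x.b1
      · rw [ln3 h β (by omega) c3]; omega
      · by_cases c4 : β + x.Kh < x.B
        · rw [ln4 h β (by omega) c4]
        · by_cases c5 : β + 1 < x.B
          · rw [ln5 h β (by omega) c5]; omega
          · have := (ln6 h β (by omega)).1
            omega

theorem ln_le {x : Prm} (h : Par x) (β : ℕ) (hβ : β + 1 < x.B) : x.st (β + 1) ≤ x.st β + x.v := by
  have h12 := h.w12
  have h1v := h.w1v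
  by_cases c1 : β < x.Kh
  · rw [ln1 β c1]; omega
  · by_cases c2 : β < x.b0
    · rw [ln2 β (by omega) c2]; omega
    · by_cases c3 : β < x.b1
      · rw [ln3 h β (by omega) c3]
      · by_cases c4 : β + x.Kh < x.B
        · rw [ln4 h β (by omega) c4]; omega
        · rw [ln5 h β (by omega) hβ]; omega

theorem st_step {x : Prm} (h : Par x) (β : ℕ) : x.st β ≤ x.st (β + 1) := by
  by_cases hβ : β < x.B
  · exact le_trans (Nat.le_add_right _ _) (ln_ge h β hβ)
  · rw [st_end h β (by omega), st_end h (β + 1) (by omega)]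

theorem st_mono {x : Prm} (h : Par x) : Monotone x.st := monotone_nat_of_le_succ (st_step h)

theorem st_zc {x : Prm} (h : Par x) (i n : ℕ) (hn : i + n ≤ x.B) :
    x.st i + n * x.w1 + (x.w1 - x.w2) * zc x i ≤
      x.st (i + n) + (x.w1 - x.w2) * zc x (i + n) := by
  induction n with
  | zero => simp
  | succ n ih =>
    have h1 := ih (by omega)
    have h2 := ln_zc h (i + n) (by omega)
    have e : (n + 1) * x.w1 = n * x.w1 + x.w1 := by ring
    rw [e, ← add_assoc i n 1]
    omega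

theorem st_le {x : Prm} (h : Par x) (i n : ℕ) (hn : i + n < x.B) :
    x.st (i + n) ≤ x.st i + n * x.v := by
  induction n with
  | zero => simp
  | succ n ih =>
    have h1 := ih (by omega)
    have h2 := ln_le h (i + n) (by omega)
    have e : (n + 1) * x.v = n * x.v + x.v := by ring
    rw [e, ← add_assoc i n 1]
    omega

theorem st_K {x : Prm} (h : Par x) (i n : ℕ) (h0 : x.K ≤ n + 2 * x.W + 2) (hi : i + n ≤ x.B) :
    x.st i + x.p ≤ x.st (i + n) := by
  have hk := KhB h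
  have hb := B_def x
  have hb1 := b1_def x
  have hKM := KM h
  have hKW := h.KW
  have hp := h.pK
  have h12 := h.w12
  obtain ⟨m, hm⟩ : ∃ m, m = x.K - 2 * x.W - 2 := ⟨_, rfl⟩
  obtain ⟨c, hc⟩ : ∃ c, c = x.b0 - x.Kh := ⟨_, rfl⟩
  rw [← hm, ← hc] at hp
  have h1 := st_zc h i m (by omega)
  have h2 : zc x (i + m) ≤ zc x i + c := by unfold zc; omega
  have h3 : (x.w1 - x.w2) * zc x (i + m) ≤ (x.w1 - x.w2) * (zc x i + c) :=
    Nat.mul_le_mul_left _ h2
  rw [Nat.mul_add] at h3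
  have h4 : x.st (i + m) ≤ x.st (i + n) := st_mono h (by omega)
  have h5 : m * x.w1 = c * x.w2 + (m - c) * x.w1 + (x.w1 - x.w2) * c := by
    obtain ⟨d, hd⟩ : ∃ d, x.w1 = x.w2 + d := ⟨x.w1 - x.w2, by omega⟩
    obtain ⟨s, hs⟩ : ∃ s, m = c + s := ⟨m - c, by omega⟩
    rw [hd, hs, Nat.add_sub_cancel_left, Nat.add_sub_cancel_left]
    ring
  omega

theorem t_BLK : S_BLK := by
  intro x h
  have hk := KhB h
  have hb := B_def x
  have hb1 := b1_def x
  have h12 := h.w12
  have h1v := h.w1v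
  refine ⟨?_, ?_, st_step h, fun i n h1 h2 => st_K h i n h1 h2, ?_, ?_, ?_, ?_, ?_, ?_, ?_⟩
  · rw [st_z1 x 0 (Nat.zero_le _), Nat.zero_mul]
  · exact st_end h x.B le_rfl
  · intro β hβ
    unfold ln
    rw [ln1 β hβ]
    omega
  · intro β h0 h1
    unfold ln
    rw [ln2 β h0 h1]
    omega
  · intro β h0 h1
    unfold ln
    rw [ln3 h β h0 h1]
    omega
  · intro β h0 h1
    unfold ln
    rw [ln4 h β h0 h1]
    omega
  · intro β h0 h1
    unfold ln
    rw [ln5 h β h0 h1]
    omega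
  · intro β h1
    unfold ln
    have := ln6 h β h1
    omega
  · intro β hβ
    unfold ln
    have h3 := ln_ge h β hβ
    refine ⟨by omega, ?_⟩
    by_cases c : β + 1 < x.B
    · have := ln_le h β c
      omega
    · have := (ln6 h β (by omega)).2
      omega

end Pool.Agent.H61.HX
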